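import Mathlib
import Pool.Agent.helper68.AM.SpecX

/-!
Project sl, module XI: traces and lengths of the pairs of the two trees.
-/

set_option autoImplicit false

namespace AM

open Pool.Agent.helper72.Sq Matrix

theorem XI_pd (ρ : F2 →* SpecialLinearGroup (Fin 2) ℝ) :
    ∀ (w : List Bool) (x : F2 × F2), trTri ρ (pd w x) = desc w (trTri ρ x) := by
  intro w
  induction w with
  | nil => intro x; rfl
  | cons b w ih =>
    intro x
    cases b
    · show trTri ρ (pd w (x.1 * x.2, x.2)) = desc w (Rm (trTri ρ x))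
      rw [ih, trTri_R]
    · show trTri ρ (pd w (x.1, x.1 * x.2)) = desc w (Lm (trTri ρ x))
      rw [ih, trTri_L]

theorem XI_adm : ∀ (w : List Bool) (P : Tri), Adm P → Adm (desc w P) := by
  intro w
  induction w with
  | nil => intro P h; exact h
  | cons b w ih =>
    intro P h
    cases b
    · exact ih _ h.R
    · exact ih _ h.L

theorem XI_root (ρ : F2 →* SpecialLinearGroup (Fin 2) ℝ) (ε : Bool) :
    trTri ρ (rootp ε) = if ε then trTri ρ (ga, gb) else Tw (trTri ρ (ga, gb)) := by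
  cases ε
  · exact trTri_Tw ρ
  · rfl

theorem XI_gLen (ρ : F2 →* SpecialLinearGroup (Fin 2) ℝ) (g : F2) (h : 2 < tr (ρ g)) :
    gLen ρ g = len (tr (ρ g)) := by
  unfold gLen len
  rw [abs_of_pos (by linarith)]

theorem XI_gLen_inv (ρ : F2 →* SpecialLinearGroup (Fin 2) ℝ) (g : F2) : gLen ρ g⁻¹ = gLen ρ g := by
  unfold gLen
  rw [map_inv, tr_inv]

theorem XI : XI_stmt := by
  intro ρ hA ε w τ Q
  have hroot : Adm (if ε then trTri ρ (ga, gb) else Tw (trTri ρ (ga, gb))) := by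
    cases ε
    · exact hA.Tw
    · exact hA
  have hQ : Adm Q := XI_adm w _ hroot
  have hQe : trTri ρ (pd w (rootp ε)) = Q := by
    rw [XI_pd, XI_root]
  set y := pd w (rootp ε) with hy
  have h1 : gLen ρ y.1 = len Q.1 := by
    have e : Q.1 = tr (ρ y.1) := by rw [← hQe]; rfl
    rw [e]
    apply XI_gLen
    rw [← e]
    exact hQ.x2
  have h2 : gLen ρ y.2 = len Q.2.1 := by
    have e : Q.2.1 = tr (ρ y.2) := by rw [← hQe]; rfl
    rw [e]
    apply XI_gLen
    rw [← e]
    exact hQ.y2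
  refine ⟨hQ, ?_, ?_⟩
  · intro hτ
    fin_cases τ
    · exact ⟨h1, h2⟩
    · simp at hτ
    · refine ⟨?_, ?_⟩
      · show gLen ρ y.1⁻¹ = _
        rw [XI_gLen_inv, h1]
      · show gLen ρ y.2⁻¹ = _
        rw [XI_gLen_inv, h2]
    · simp at hτ
  · intro hτ
    fin_cases τ
    · simp at hτ
    · refine ⟨h2, ?_⟩
      show gLen ρ y.1⁻¹ = _
      rw [XI_gLen_inv, h1]
    · simp at hτ
    · refine ⟨?_, ?_⟩
      · show gLen ρ y.2⁻¹ = _
        rw [XI_gLen_inv, h2]
      · show gLen ρ (y.1⁻¹)⁻¹ = _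
        rw [inv_inv, h1]

end AM
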